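import Pool.Agent.R278.UD.Final

/-!
# Universal disposition without homogeneity
-/

open Cardinal

namespace Pool.Agent.Results.MP_f735f2_an.DispositionWithoutHomogeneity

open Pool.Agent.R278.UD

universe u

/-- The class of Banach spaces of density less than `κ`, read as the class of finite-dimensional
spaces when `κ` is `ℵ₀`. -/
def InD (κ : Cardinal.{u}) (A : Type u) [NormedAddCommGroup A] [NormedSpace ℝ A] : Prop :=
  CompleteSpace A ∧ ((κ = ℵ₀ ∧ FiniteDimensional ℝ A) ∨
    (ℵ₀ < κ ∧ ∃ D : Set A, Dense D ∧ #D < κ))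

/-- Universal disposition for the spaces of density less than `κ`. -/
def UniversalDisposition (κ : Cardinal.{u}) (X : Type u) [NormedAddCommGroup X]
    [NormedSpace ℝ X] : Prop :=
  ∀ (A B : Type u) [NormedAddCommGroup A] [NormedSpace ℝ A] [NormedAddCommGroup B]
    [NormedSpace ℝ B], InD κ A → InD κ B → ∀ (e : A →ₗᵢ[ℝ] X) (i : A →ₗᵢ[ℝ] B),
    ∃ w : B →ₗᵢ[ℝ] X, ∀ a, w (i a) = e a

/-- Homogeneity with respect to the subspaces of density less than `κ`. -/
def Homogeneous (κ : Cardinal.{u}) (X : Type u) [NormedAddCommGroup X]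
    [NormedSpace ℝ X] : Prop :=
  ∀ E F : Submodule ℝ X, IsClosed (E : Set X) → IsClosed (F : Set X) → InD κ E → InD κ F →
    ∀ h : E ≃ₗᵢ[ℝ] F, ∃ H : X ≃ₗᵢ[ℝ] X, ∀ x : E, H (x : X) = (h x : X)

/-- For every infinite cardinal `κ` there is a Banach space of universal disposition for the
spaces of density at most `κ`, in particular for the spaces of density less than `μ` for every
infinite `μ` up to the successor of `κ`, which is not homogeneous with respect to the subspaces
of density less than `μ` for any infinite `μ`; its isometry group is not even transitive on the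
unit sphere. -/
theorem result (κ : Cardinal.{u}) (hκ : ℵ₀ ≤ κ) : ∃ (X : Type u) (_ : NormedAddCommGroup X)
    (_ : NormedSpace ℝ X) (_ : CompleteSpace X),
    (∀ μ : Cardinal.{u}, ℵ₀ ≤ μ → μ ≤ Order.succ κ → UniversalDisposition μ X) ∧
    (∀ μ : Cardinal.{u}, ℵ₀ ≤ μ → ¬ Homogeneous μ X) ∧
    ∃ x y : X, ‖x‖ = 1 ∧ ‖y‖ = 1 ∧ ∀ h : X ≃ₗᵢ[ℝ] X, h x ≠ y := by
  have hI : Infinite κ.out := by
    rw [Cardinal.infinite_iff, Cardinal.mk_out]
    exact hκ
  obtain ⟨X, i1, i2, i3, h1, x, y, hx, hy, h2⟩ := exists_space κ.out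
  refine ⟨X, i1, i2, i3, ?_, ?_, x, y, hx, hy, h2⟩
  · have key : ∀ μ : Cardinal.{u}, μ ≤ Order.succ κ → ∀ (A : Type u) [NormedAddCommGroup A]
        [NormedSpace ℝ A], InD μ A → ∃ d : κ.out → A, DenseRange d := by
      intro μ hμ2 A _ _ hA
      rcases hA.2 with ⟨-, h3⟩ | ⟨-, D, hD1, hD2⟩
      · exact exists_denseRange_fd h3
      · apply exists_denseRange hD1
        rw [Cardinal.mk_out]
        exact Order.lt_succ_iff.1 (hD2.trans_le hμ2)
    intro μ hμ hμ2 A E _ _ _ _ hA hE e i
    obtain ⟨dA, hdA⟩ := key μ hμ2 A hA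
    obtain ⟨dE, hdE⟩ := key μ hμ2 E hE
    exact h1 A E i e dA hdA dE hdE
  · intro μ hμ hhom
    obtain ⟨h, hh⟩ := exists_line_iso hx hy
    have hin : ∀ z : X, InD μ (Submodule.span ℝ {z}) := by
      intro z
      refine ⟨inferInstance, ?_⟩
      rcases hμ.eq_or_lt with h3 | h3
      · exact Or.inl ⟨h3.symm, inferInstance⟩
      · right
        refine ⟨h3, ?_⟩
        have : ProperSpace (Submodule.span ℝ {z}) := FiniteDimensional.proper_real _
        obtain ⟨D, hD1, hD2⟩ := TopologicalSpace.exists_countable_dense (Submodule.span ℝ {z})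
        exact ⟨D, hD2, (Cardinal.le_aleph0_iff_set_countable.2 hD1).trans_lt h3⟩
    obtain ⟨H, hH⟩ := hhom _ _ (Submodule.closed_of_finiteDimensional _)
      (Submodule.closed_of_finiteDimensional _) (hin x) (hin y) h
    apply h2 H
    rw [← hh]
    exact hH ⟨x, Submodule.mem_span_singleton_self x⟩

end Pool.Agent.Results.MP_f735f2_an.DispositionWithoutHomogeneity
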